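import Pool.Agent.Helper29.SR.Props
import Pool.Agent.Helper10.RC.Homs
import Pool.Agent.Helper32.RC.CutDown

/-!
# MP_b55b7c_an: ranks of disjoint parts add up (packet SR-Disj)
-/

open scoped ENNReal NNReal InnerProductSpace ComplexOrder
open Filter Topology

attribute [-instance] CStarMatrix.instAlgebra CStarMatrix.instModule CStarMatrix.instSMul
  CStarMatrix.instMulAction CStarMatrix.instDistribMulAction

set_option linter.unusedSectionVars false

noncomputable section
namespace RC
universe u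

namespace Disj

variable {A : Type u} [CStarAlgebra A] [PartialOrder A] [StarOrderedRing A]
variable {ι κ μ ν : Type} [Fintype ι] [DecidableEq ι] [Fintype κ] [DecidableEq κ]
  [Fintype μ] [DecidableEq μ] [Fintype ν] [DecidableEq ν]

theorem cm_mul_add (x : CStarMatrix ι κ A) (y z : CStarMatrix κ μ A) :
    x * (y + z) = x * y + x * z := Matrix.mul_add _ _ _

theorem cm_add_mul (x y : CStarMatrix ι κ A) (z : CStarMatrix κ μ A) :
    (x + y) * z = x * z + y * z := Matrix.add_mul _ _ _

theorem inl_inl : (inlM A ι κ).conjTranspose * inlM A ι κ = 1 := by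
  show (Matrix.fromRows (1 : Matrix ι ι A) (0 : Matrix κ ι A)).conjTranspose *
    Matrix.fromRows (1 : Matrix ι ι A) (0 : Matrix κ ι A) = 1
  rw [Matrix.conjTranspose_fromRows_eq_fromCols_conjTranspose, Matrix.fromCols_mul_fromRows]
  simp

theorem inr_inr : (inrM A ι κ).conjTranspose * inrM A ι κ = 1 := by
  show (Matrix.fromRows (0 : Matrix ι κ A) (1 : Matrix κ κ A)).conjTranspose *
    Matrix.fromRows (0 : Matrix ι κ A) (1 : Matrix κ κ A) = 1
  rw [Matrix.conjTranspose_fromRows_eq_fromCols_conjTranspose, Matrix.fromCols_mul_fromRows]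
  simp

theorem inl_inr : (inlM A ι κ).conjTranspose * inrM A ι κ = 0 := by
  show (Matrix.fromRows (1 : Matrix ι ι A) (0 : Matrix κ ι A)).conjTranspose *
    Matrix.fromRows (0 : Matrix ι κ A) (1 : Matrix κ κ A) = 0
  rw [Matrix.conjTranspose_fromRows_eq_fromCols_conjTranspose, Matrix.fromCols_mul_fromRows]
  simp

theorem inr_inl : (inrM A ι κ).conjTranspose * inlM A ι κ = 0 := by
  show (Matrix.fromRows (0 : Matrix ι κ A) (1 : Matrix κ κ A)).conjTranspose *
    Matrix.fromRows (1 : Matrix ι ι A) (0 : Matrix κ ι A) = 0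
  rw [Matrix.conjTranspose_fromRows_eq_fromCols_conjTranspose, Matrix.fromCols_mul_fromRows]
  simp

/-- `|x - y|² ≤ 2 |x|² + 2 |y|²`. -/
theorem sqdiff (x y : CStarMatrix ι κ A) :
    (x - y).conjTranspose * (x - y) ≤
      (2 : ℝ) • (x.conjTranspose * x) + (2 : ℝ) • (y.conjTranspose * y) := by
  have h := cm_conj_mul_nonneg (x + y)
  rw [← sub_nonneg]
  have e : (2 : ℝ) • (x.conjTranspose * x) + (2 : ℝ) • (y.conjTranspose * y) -
      (x - y).conjTranspose * (x - y) = (x + y).conjTranspose * (x + y) := by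
    rw [cm_conj_sub, cm_conj_add, cm_mul_sub, cm_sub_mul, cm_sub_mul, cm_mul_add, cm_add_mul,
      cm_add_mul, two_smul, two_smul]
    abel
  rw [e]
  exact h

/-- `(w x)^H (w x) ≤ ‖w‖² x^H x`. -/
theorem mul_sq_le (w : CStarMatrix ι ι A) (x : CStarMatrix ι κ A) :
    (w * x).conjTranspose * (w * x) ≤ (‖w‖ ^ 2) • (x.conjTranspose * x) := by
  have h : w.conjTranspose * w ≤ (‖w‖ ^ 2) • (1 : CStarMatrix ι ι A) := by
    have := CStarAlgebra.star_mul_le_algebraMap_norm_sq (a := w)
    rwa [Algebra.algebraMap_eq_smul_one] at this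
  have h2 := cm_conj_le' x h
  have e1 : x.conjTranspose * (w.conjTranspose * w) * x = (w * x).conjTranspose * (w * x) := by
    rw [cm_conj_mul, cm_assoc, cm_assoc, cm_assoc]
  have e2 : x.conjTranspose * ((‖w‖ ^ 2) • (1 : CStarMatrix ι ι A)) * x =
      (‖w‖ ^ 2) • (x.conjTranspose * x) := by
    rw [cm_mul_rsmul, cm_rsmul_mul, cm_mul_one]
  rwa [e1, e2] at h2

theorem Cu_smul (a : CStarMatrix ι ι A) {r : ℝ} (hr : 0 ≤ r) : Cu (r • a) a := by
  intro ε hε
  refine ⟨Real.sqrt r • (1 : CStarMatrix ι ι A), ?_⟩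
  rw [cm_rsmul_mul, cm_one_mul, cm_conj_rsmul, cm_conj_one, cm_mul_rsmul, cm_mul_one, smul_smul,
    Real.mul_self_sqrt hr, sub_self, norm_zero]
  exact hε

end Disj

open Disj in
/-- Packet SR-Disj. -/
theorem disjP (hLe : CuLeAddP.{u}) (hSwap : CuSwapP.{u}) (hMono : QMonoP.{u})
    (hDs : QDsumP.{u}) : DisjP.{u} := by
  intro M _ _ _ w y z c δ θ C hy hz hc hδ hθ hwy hwz hC σ
  -- the square root of `y`
  obtain ⟨s, hs0, hss⟩ : ∃ s : M, 0 ≤ s ∧ s * s = y :=
    ⟨CFC.sqrt y, CFC.sqrt_nonneg y, CFC.sqrt_mul_sqrt_self y hy⟩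
  have hsst : star s = s := hs0.isSelfAdjoint
  have hzst : star z = z := hz
  have hzz : 0 ≤ z * z := by
    have := star_mul_self_nonneg z
    rwa [hzst] at this
  have o1m : ∀ a b : M, one1 (a * b) = one1 a * one1 b := fun a b => map_mul one1H a b
  have o1s : ∀ a : M, (one1 a).conjTranspose = one1 (star a) := fun a =>
    (map_star one1H a).symm
  have o1r : ∀ (r : ℝ) (a : M), one1 (r • a) = r • one1 a := fun r a => rfl
  -- the rows
  set L : CStarMatrix (Unit ⊕ Unit) Unit M := inlM M Unit Unit with hL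
  set R : CStarMatrix (Unit ⊕ Unit) Unit M := inrM M Unit Unit with hR
  have hLL : L.conjTranspose * L = 1 := inl_inl
  have hRR : R.conjTranspose * R = 1 := inr_inr
  have hLR : L.conjTranspose * R = 0 := inl_inr
  have hRL : R.conjTranspose * L = 0 := inr_inl
  set T1 : CStarMatrix Unit (Unit ⊕ Unit) M := one1 s * L.conjTranspose with hT1
  set T2 : CStarMatrix Unit (Unit ⊕ Unit) M := one1 z * R.conjTranspose with hT2
  set T : CStarMatrix Unit (Unit ⊕ Unit) M := T1 + T2 with hT
  have gL : ∀ a : M, (one1 a * L.conjTranspose).conjTranspose * (one1 a * L.conjTranspose) =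
      dsum (one1 (star a * a)) 0 := by
    intro a
    rw [cm_conj_mul, cm_conj_conj, ← cm_assoc, cm_assoc L, o1s, ← o1m]
    exact inlM_conj _
  have gR : ∀ a : M, (one1 a * R.conjTranspose).conjTranspose * (one1 a * R.conjTranspose) =
      dsum 0 (one1 (star a * a)) := by
    intro a
    rw [cm_conj_mul, cm_conj_conj, ← cm_assoc, cm_assoc R, o1s, ← o1m]
    exact inrM_conj _
  have hY : T1.conjTranspose * T1 = dsum (one1 y) 0 := by
    rw [hT1, gL, hsst, hss]
  have hZ : T2.conjTranspose * T2 = dsum 0 (one1 (z * z)) := by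
    rw [hT2, gR, hzst]
  have hTT : T * T.conjTranspose = one1 (y + z * z) := by
    have e : ∀ a b : M, ∀ P Q : CStarMatrix (Unit ⊕ Unit) Unit M,
        (one1 a * P.conjTranspose) * (one1 b * Q.conjTranspose).conjTranspose =
        one1 a * (P.conjTranspose * Q) * one1 (star b) := by
      intro a b P Q
      rw [cm_conj_mul, cm_conj_conj, o1s, ← cm_assoc, cm_assoc (one1 a)]
    rw [hT, cm_conj_add, cm_mul_add, cm_add_mul, cm_add_mul, hT1, hT2, e, e, e, e, hLL, hRR, hLR,
      hRL, hsst, hzst]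
    have e0 : ∀ a : M, one1 a * (0 : CStarMatrix Unit Unit M) = 0 := fun a => mul_zero _
    have e1 : ∀ a : M, (0 : CStarMatrix Unit Unit M) * one1 a = 0 := fun a => zero_mul _
    rw [e0, e1, e0, e1, cm_mul_one, cm_mul_one, ← o1m, ← o1m, hss]
    have : one1 (y + z * z) = one1 y + one1 (z * z) := map_add one1H y (z * z)
    rw [this, add_zero, zero_add]
  set W : CStarMatrix Unit Unit M := one1 w with hW
  set P : CStarMatrix (Unit ⊕ Unit) (Unit ⊕ Unit) M := T.conjTranspose * T with hP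
  set Z : CStarMatrix (Unit ⊕ Unit) (Unit ⊕ Unit) M := dsum 0 (one1 (z * z)) with hZdef
  set Y : CStarMatrix (Unit ⊕ Unit) (Unit ⊕ Unit) M := dsum (one1 y) 0 with hYdef
  have hP0 : 0 ≤ P := cm_conj_mul_nonneg T
  -- the first estimate
  have h1 : δ • Z ≤ (2 * ‖W‖ ^ 2) • P + (δ * θ / 3) • 1 := by
    have a1 := sqdiff (W * T) (W * T1)
    have a2 : W * T - W * T1 = W * T2 := by
      rw [← cm_mul_sub, hT, add_sub_cancel_left]
    rw [a2] at a1
    have a3 := mul_sq_le W T
    have a4 : (W * T1).conjTranspose * (W * T1) ≤ (δ * θ / 6) • 1 := by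
      have b1 : W * T1 = one1 (w * s) * L.conjTranspose := by
        rw [hT1, ← cm_assoc, hW, ← o1m]
      rw [b1, gL]
      have b2 : star (w * s) * (w * s) ≤ (δ * θ / 6) • (1 : M) := by
        have c1 := CStarAlgebra.star_mul_le_algebraMap_norm_sq (a := w * s)
        rw [Algebra.algebraMap_eq_smul_one] at c1
        refine c1.trans ?_
        have c2 : ‖w * s‖ ^ 2 = ‖w * y * star w‖ := by
          rw [pow_two, ← CStarRing.norm_self_mul_star]
          congr 1
          rw [star_mul, hsst, ← hss]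
          simp only [mul_assoc]
        rw [c2]
        have c3 : (0 : M) ≤ 1 := zero_le_one
        exact smul_le_smul_of_nonneg_right hwy c3
      have b3 : dsum (one1 (star (w * s) * (w * s))) (0 : CStarMatrix Unit Unit M) ≤
          dsum (one1 ((δ * θ / 6) • (1 : M))) (one1 ((δ * θ / 6) • (1 : M))) := by
        refine CutDown.dsum_mono ?_ ?_
        · have := one1_nonneg (sub_nonneg.2 b2)
          rw [← sub_nonneg]
          have e : one1 ((δ * θ / 6) • (1 : M) - star (w * s) * (w * s)) =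
            one1 ((δ * θ / 6) • (1 : M)) - one1 (star (w * s) * (w * s)) := map_sub one1H _ _
          rwa [e] at this
        · refine one1_nonneg ?_
          have c3 : (0 : M) ≤ 1 := zero_le_one
          exact smul_nonneg (by positivity) c3
      refine b3.trans (le_of_eq ?_)
      rw [o1r, CutDown.dsum_rsmul]
      have : one1 (1 : M) = 1 := map_one one1H
      rw [this, CutDown.dsum_one]
    have a5 : δ • Z ≤ (W * T2).conjTranspose * (W * T2) := by
      have b1 : W * T2 = one1 (w * z) * R.conjTranspose := by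
        rw [hT2, ← cm_assoc, hW, ← o1m]
      rw [b1, gR]
      have b2 : star (w * z) * (w * z) = z * sq w * z := by
        rw [star_mul, hzst]
        simp only [sq, mul_assoc]
      rw [b2]
      have b3 : δ • Z = dsum 0 (one1 (δ • (z * z))) := by
        rw [hZdef, o1r, ← CutDown.dsum_rsmul, smul_zero]
      rw [b3]
      refine CutDown.dsum_mono le_rfl ?_
      have := one1_nonneg (sub_nonneg.2 hwz)
      rw [← sub_nonneg]
      have e : one1 (z * sq w * z - δ • (z * z)) =
        one1 (z * sq w * z) - one1 (δ • (z * z)) := map_sub one1H _ _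
      rwa [e] at this
    refine a5.trans (a1.trans ?_)
    have a6 := smul_le_smul_of_nonneg_left a3 (show (0 : ℝ) ≤ 2 by norm_num)
    have a7 := smul_le_smul_of_nonneg_left a4 (show (0 : ℝ) ≤ 2 by norm_num)
    refine (add_le_add a6 a7).trans (le_of_eq ?_)
    rw [smul_smul, smul_smul]
    congr 2
    ring
  have h2 : Y ≤ (2 : ℝ) • P + (2 : ℝ) • Z := by
    have a1 := sqdiff T T2
    have a2 : T - T2 = T1 := by rw [hT, add_sub_cancel_right]
    rw [a2, hY, hZ] at a1
    exact a1
  -- the sum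
  have h3 : Z ≤ (2 * ‖W‖ ^ 2 / δ) • P + (θ / 3) • 1 := by
    have a1 := smul_le_smul_of_nonneg_left h1 (show (0 : ℝ) ≤ δ⁻¹ by positivity)
    rw [smul_smul, inv_mul_cancel₀ hδ.ne', one_smul, smul_add, smul_smul, smul_smul] at a1
    refine a1.trans (le_of_eq ?_)
    congr 2
    · field_simp
    · field_simp
  have h4 : Y + Z ≤ (2 + 3 * (2 * ‖W‖ ^ 2 / δ)) • P + θ • 1 := by
    have a1 : Y + Z ≤ (2 : ℝ) • P + (3 : ℝ) • Z := by
      refine (add_le_add_left h2 Z).trans (le_of_eq ?_)
      have : (3 : ℝ) • Z = (2 : ℝ) • Z + Z := by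
        rw [show (3 : ℝ) = 2 + 1 by norm_num, add_smul, one_smul]
      rw [this, add_assoc]
    have a2 := smul_le_smul_of_nonneg_left h3 (show (0 : ℝ) ≤ 3 by norm_num)
    refine a1.trans ((add_le_add_right a2 _).trans (le_of_eq ?_))
    rw [smul_add, smul_smul, smul_smul, ← add_assoc, ← add_smul]
    congr 2
    ring
  -- comparison
  have hYZ : Y + Z = dsum (one1 y) (one1 (z * z)) := by
    rw [hYdef, hZdef, ← dsum_eq_add]
  have hY0 : 0 ≤ one1 y := one1_nonneg hy
  have hZ0 : 0 ≤ one1 (z * z) := one1_nonneg hzz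
  have hYZ0 : 0 ≤ Y + Z := by rw [hYZ]; exact dsum_nonneg hY0 hZ0
  set K : ℝ := 2 + 3 * (2 * ‖W‖ ^ 2 / δ) with hK
  have hK0 : 0 ≤ K := by positivity
  have hKP : 0 ≤ K • P := smul_nonneg hK0 hP0
  have k1 : Cu (cut (Y + Z) θ) (K • P) := hLe M (Unit ⊕ Unit) (Y + Z) (K • P) θ hθ.le hYZ0 hKP h4
  have k2 : Cu (K • P) P := Cu_smul P hK0
  have hTT0 : 0 ≤ T * T.conjTranspose := cm_mul_conj_nonneg T
  have k3 : Cu P (T * T.conjTranspose) := by
    have := hSwap M (Unit ⊕ Unit) Unit T.conjTranspose 0 le_rfl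
    rw [cm_conj_conj, cut_zero hP0, cut_zero hTT0] at this
    exact this
  have hC' : y + z * z ≤ |C| • c := by
    refine hC.trans ?_
    exact smul_le_smul_of_nonneg_right (le_abs_self C) hc
  have k4 : Cu (T * T.conjTranspose) (|C| • one1 c) := by
    have := hLe M Unit (T * T.conjTranspose) (|C| • one1 c) 0 le_rfl hTT0
      (smul_nonneg (abs_nonneg C) (one1_nonneg hc)) (by
        rw [zero_smul, add_zero, hTT, ← o1r]
        have := one1_nonneg (sub_nonneg.2 hC')
        rw [← sub_nonneg]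
        have e : one1 (|C| • c - (y + z * z)) = one1 (|C| • c) - one1 (y + z * z) :=
          map_sub one1H _ _
        rwa [e] at this)
    rwa [cut_zero hTT0] at this
  have k5 : Cu (|C| • one1 c) (one1 c) := Cu_smul _ (abs_nonneg C)
  have m1 := hMono M σ _ _ _ _ (cut_nonneg (Y + Z) θ) hKP k1
  have m2 := hMono M σ _ _ _ _ hKP hP0 k2
  have m3 := hMono M σ _ _ _ _ hP0 hTT0 k3
  have m4 := hMono M σ _ _ _ _ hTT0 (smul_nonneg (abs_nonneg C) (one1_nonneg hc)) k4
  have m5 := hMono M σ _ _ _ _ (smul_nonneg (abs_nonneg C) (one1_nonneg hc)) (one1_nonneg hc) k5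
  have e1 : cut (Y + Z) θ = dsum (one1 (cut y θ)) (one1 (cut (z * z) θ)) := by
    rw [hYZ, CutDown.cut_dsum _ _ hY0.isSelfAdjoint hZ0.isSelfAdjoint, cut_one1 hy.isSelfAdjoint,
      cut_one1 hzz.isSelfAdjoint]
  have e2 := (hDs M σ Unit Unit (one1 (cut y θ)) (one1 (cut (z * z) θ))
    (one1_nonneg (cut_nonneg _ _)) (one1_nonneg (cut_nonneg _ _))).2
  rw [← e2, ← e1]
  exact m1.trans (m2.trans (m3.trans (m4.trans m5)))

end RC
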