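import Pool.Agent.Helper75.SR.Goals2
import Pool.Agent.Helper54.SRD.Basic

/-!
# MP_d08e19_gt: packet SR-GKB
-/

namespace Pool.Agent.Helper62.SR

open scoped ContDiff Topology Manifold Matrix
open Set Real Pool.Agent.Helper54.SRD Pool.Agent.Helper75.SR

variable {E : Type} [NormedAddCommGroup E] [NormedSpace ℝ E]

theorem g_nonneg {U : Set E} (S : LocSas E U) {z : E} (hz : z ∈ U) (u : E) : 0 ≤ S.g z u u := by
  by_cases h : u = 0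
  · rw [h]
    simp
  · exact (S.g_pos z hz u h).le

theorem CurvLE.mono {U : Set E} {S : LocSas E U} {K K' : ℝ} (hK : K ≤ K') {z : E} (hz : z ∈ U)
    (h : CurvLE S K z) : CurvLE S K' z := by
  intro u v
  refine le_trans (h u v) ?_
  have h1 := g_nonneg S hz u
  have h2 := g_nonneg S hz v
  have h3 : K * S.g z u u ≤ K' * S.g z u u := mul_le_mul_of_nonneg_right hK h1
  exact mul_le_mul_of_nonneg_right h3 h2

/-- Positive definiteness is uniform near a point. -/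
theorem g_lower [FiniteDimensional ℝ E] {U : Set E} (S : LocSas E U) {z₀ : E} (hz : z₀ ∈ U) :
    ∃ m : ℝ, 0 < m ∧ ∀ᶠ z in 𝓝 z₀, ∀ u : E, m * ‖u‖ ^ 2 ≤ S.g z u u := by
  obtain ⟨m, hm, hm'⟩ : ∃ m : ℝ, 0 < m ∧ ∀ u : E, m * ‖u‖ ^ 2 ≤ S.g z₀ u u := by
    have hproper : ProperSpace E := FiniteDimensional.proper ℝ E
    rcases subsingleton_or_nontrivial E with hs | hn
    · refine ⟨1, one_pos, fun u => ?_⟩
      have : u = 0 := Subsingleton.elim _ _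
      rw [this]
      simp
    · have hc : IsCompact (Metric.sphere (0 : E) 1) := isCompact_sphere 0 1
      have hne : (Metric.sphere (0 : E) 1).Nonempty := NormedSpace.sphere_nonempty.mpr zero_le_one
      have hcont : ContinuousOn (fun u : E => S.g z₀ u u) (Metric.sphere (0 : E) 1) := by
        have : Continuous (fun u : E => S.g z₀ u u) := by fun_prop
        exact this.continuousOn
      obtain ⟨u₀, hu₀, hmin⟩ := hc.exists_isMinOn hne hcont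
      have hu1 : ‖u₀‖ = 1 := by simpa using hu₀
      have hu0 : u₀ ≠ 0 := by
        intro h
        rw [h] at hu1
        simp at hu1
      refine ⟨S.g z₀ u₀ u₀, S.g_pos z₀ hz u₀ hu0, fun u => ?_⟩
      by_cases hu : u = 0
      · rw [hu]
        simp
      · have hun : 0 < ‖u‖ := norm_pos_iff.mpr hu
        have h1 : S.g z₀ u₀ u₀ ≤ S.g z₀ (‖u‖⁻¹ • u) (‖u‖⁻¹ • u) := by
          apply hmin
          simp [norm_smul, hun.ne']
        have h2 : S.g z₀ (‖u‖⁻¹ • u) (‖u‖⁻¹ • u) = S.g z₀ u u / ‖u‖ ^ 2 := by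
          simp only [map_smul, _root_.smul_apply, smul_eq_mul]
          field_simp
        rw [h2, le_div_iff₀ (by positivity)] at h1
        exact h1
  refine ⟨m / 2, by positivity, ?_⟩
  have hcg : ContinuousAt S.g z₀ :=
    (S.g_smooth.contDiffAt (S.isOpen.mem_nhds hz)).continuousAt
  have h1 : ∀ᶠ z in 𝓝 z₀, ‖S.g z - S.g z₀‖ < m / 2 := by
    have := Metric.tendsto_nhds.mp hcg (m / 2) (by positivity)
    simpa [dist_eq_norm] using this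
  filter_upwards [h1] with z hz1 u
  have h2 : |S.g z u u - S.g z₀ u u| ≤ m / 2 * ‖u‖ ^ 2 := by
    have e : S.g z u u - S.g z₀ u u = (S.g z - S.g z₀) u u := by simp
    rw [e, ← Real.norm_eq_abs]
    calc ‖(S.g z - S.g z₀) u u‖ ≤ ‖(S.g z - S.g z₀) u‖ * ‖u‖ := ContinuousLinearMap.le_opNorm _ _
      _ ≤ ‖S.g z - S.g z₀‖ * ‖u‖ * ‖u‖ := by
          gcongr
          exact ContinuousLinearMap.le_opNorm _ _
      _ ≤ m / 2 * ‖u‖ * ‖u‖ := by gcongr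
      _ = m / 2 * ‖u‖ ^ 2 := by ring
  have h3 := hm' u
  have h4 := (abs_le.mp h2).1
  linarith

theorem norm_R_le {U : Set E} (S : LocSas E U) (z : E) (u v w : E) :
    ‖S.R z u v w‖ ≤ (2 * ‖fderiv ℝ S.Gam z‖ + 2 * ‖S.Gam z‖ ^ 2) * ‖u‖ * ‖v‖ * ‖w‖ := by
  have hD : ∀ a b c : E, ‖fderiv ℝ S.Gam z a b c‖ ≤ ‖fderiv ℝ S.Gam z‖ * ‖a‖ * ‖b‖ * ‖c‖ := by
    intro a b c
    calc ‖fderiv ℝ S.Gam z a b c‖ ≤ ‖fderiv ℝ S.Gam z a b‖ * ‖c‖ :=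
          ContinuousLinearMap.le_opNorm _ _
      _ ≤ ‖fderiv ℝ S.Gam z a‖ * ‖b‖ * ‖c‖ := by
          gcongr
          exact ContinuousLinearMap.le_opNorm _ _
      _ ≤ ‖fderiv ℝ S.Gam z‖ * ‖a‖ * ‖b‖ * ‖c‖ := by
          gcongr
          exact ContinuousLinearMap.le_opNorm _ _
  have hG : ∀ a b : E, ‖S.Gam z a b‖ ≤ ‖S.Gam z‖ * ‖a‖ * ‖b‖ := by
    intro a b
    calc ‖S.Gam z a b‖ ≤ ‖S.Gam z a‖ * ‖b‖ := ContinuousLinearMap.le_opNorm _ _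
      _ ≤ ‖S.Gam z‖ * ‖a‖ * ‖b‖ := by
          gcongr
          exact ContinuousLinearMap.le_opNorm _ _
  have hGG : ∀ a b c : E, ‖S.Gam z a (S.Gam z b c)‖ ≤ ‖S.Gam z‖ ^ 2 * ‖a‖ * ‖b‖ * ‖c‖ := by
    intro a b c
    calc ‖S.Gam z a (S.Gam z b c)‖ ≤ ‖S.Gam z‖ * ‖a‖ * ‖S.Gam z b c‖ := hG _ _
      _ ≤ ‖S.Gam z‖ * ‖a‖ * (‖S.Gam z‖ * ‖b‖ * ‖c‖) := by
          gcongr
          exact hG _ _
      _ = ‖S.Gam z‖ ^ 2 * ‖a‖ * ‖b‖ * ‖c‖ := by ring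
  unfold LocSas.R
  calc ‖fderiv ℝ S.Gam z u v w - fderiv ℝ S.Gam z v u w
      + S.Gam z u (S.Gam z v w) - S.Gam z v (S.Gam z u w)‖
      ≤ ‖fderiv ℝ S.Gam z u v w‖ + ‖fderiv ℝ S.Gam z v u w‖
        + ‖S.Gam z u (S.Gam z v w)‖ + ‖S.Gam z v (S.Gam z u w)‖ := by
        refine le_trans (norm_sub_le _ _) ?_
        gcongr
        refine le_trans (norm_add_le _ _) ?_
        gcongr
        exact norm_sub_le _ _
    _ ≤ ‖fderiv ℝ S.Gam z‖ * ‖u‖ * ‖v‖ * ‖w‖ + ‖fderiv ℝ S.Gam z‖ * ‖v‖ * ‖u‖ * ‖w‖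
        + ‖S.Gam z‖ ^ 2 * ‖u‖ * ‖v‖ * ‖w‖ + ‖S.Gam z‖ ^ 2 * ‖v‖ * ‖u‖ * ‖w‖ := by
        have h1 := hD u v w
        have h2 := hD v u w
        have h3 := hGG u v w
        have h4 := hGG v u w
        linarith
    _ = (2 * ‖fderiv ℝ S.Gam z‖ + 2 * ‖S.Gam z‖ ^ 2) * ‖u‖ * ‖v‖ * ‖w‖ := by ring

/-- Local curvature bound. -/
theorem curv_local [FiniteDimensional ℝ E] {U : Set E} (S : LocSas E U) {z₀ : E} (hz : z₀ ∈ U) :
    ∃ K : ℝ, 0 ≤ K ∧ ∀ᶠ z in 𝓝 z₀, CurvLE S K z := by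
  obtain ⟨m, hm, hm'⟩ := g_lower S hz
  have hcg : ContinuousAt S.g z₀ :=
    (S.g_smooth.contDiffAt (S.isOpen.mem_nhds hz)).continuousAt
  have hGd : ContDiffAt ℝ ∞ S.Gam z₀ := S.Gam_smooth.contDiffAt (S.isOpen.mem_nhds hz)
  have hcG : ContinuousAt S.Gam z₀ := hGd.continuousAt
  have hcD : ContinuousAt (fderiv ℝ S.Gam) z₀ := by
    have : ContDiffAt ℝ 0 (fderiv ℝ S.Gam) z₀ := hGd.fderiv_right (by simp)
    exact this.continuousAt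
  have e1 : ∀ᶠ z in 𝓝 z₀, ‖S.g z‖ < ‖S.g z₀‖ + 1 :=
    hcg.norm.eventually (gt_mem_nhds (by linarith))
  have e2 : ∀ᶠ z in 𝓝 z₀, ‖S.Gam z‖ < ‖S.Gam z₀‖ + 1 :=
    hcG.norm.eventually (gt_mem_nhds (by linarith))
  have e3 : ∀ᶠ z in 𝓝 z₀, ‖fderiv ℝ S.Gam z‖ < ‖fderiv ℝ S.Gam z₀‖ + 1 :=
    hcD.norm.eventually (gt_mem_nhds (by linarith))
  set a : ℝ := ‖S.g z₀‖ + 1 with ha
  set b : ℝ := ‖S.Gam z₀‖ + 1 with hb
  set c : ℝ := ‖fderiv ℝ S.Gam z₀‖ + 1 with hc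
  have ha0 : 0 < a := by positivity
  have hb0 : 0 < b := by positivity
  have hc0 : 0 < c := by positivity
  refine ⟨a * (2 * c + 2 * b ^ 2) / m ^ 2, by positivity, ?_⟩
  filter_upwards [hm', e1, e2, e3] with z hz1 h1 h2 h3 u v
  have hu := hz1 u
  have hv := hz1 v
  have hR : ‖S.R z u v v‖ ≤ (2 * c + 2 * b ^ 2) * ‖u‖ * ‖v‖ * ‖v‖ := by
    refine le_trans (norm_R_le S z u v v) ?_
    gcongr
  have h4 : |S.g z (S.R z u v v) u| ≤ a * (2 * c + 2 * b ^ 2) * (‖u‖ ^ 2 * ‖v‖ ^ 2) := by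
    rw [← Real.norm_eq_abs]
    calc ‖S.g z (S.R z u v v) u‖ ≤ ‖S.g z (S.R z u v v)‖ * ‖u‖ :=
          ContinuousLinearMap.le_opNorm _ _
      _ ≤ ‖S.g z‖ * ‖S.R z u v v‖ * ‖u‖ := by
          gcongr
          exact ContinuousLinearMap.le_opNorm _ _
      _ ≤ a * ((2 * c + 2 * b ^ 2) * ‖u‖ * ‖v‖ * ‖v‖) * ‖u‖ := by gcongr
      _ = a * (2 * c + 2 * b ^ 2) * (‖u‖ ^ 2 * ‖v‖ ^ 2) := by ring
  have h5 : (m * ‖u‖ ^ 2) * (m * ‖v‖ ^ 2) ≤ S.g z u u * S.g z v v := by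
    have h6 : 0 ≤ m * ‖u‖ ^ 2 := by positivity
    have h7 : 0 ≤ m * ‖v‖ ^ 2 := by positivity
    exact mul_le_mul hu hv h7 (h6.trans hu)
  calc |S.g z (S.R z u v v) u| ≤ a * (2 * c + 2 * b ^ 2) * (‖u‖ ^ 2 * ‖v‖ ^ 2) := h4
    _ = a * (2 * c + 2 * b ^ 2) / m ^ 2 * ((m * ‖u‖ ^ 2) * (m * ‖v‖ ^ 2)) := by
        field_simp
    _ ≤ a * (2 * c + 2 * b ^ 2) / m ^ 2 * (S.g z u u * S.g z v v) := by
        apply mul_le_mul_of_nonneg_left h5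
        positivity
    _ = a * (2 * c + 2 * b ^ 2) / m ^ 2 * S.g z u u * S.g z v v := by ring

theorem gKB : GKB := by
  intro E _ _ _ M _ _ _ _ S
  have hloc : ∀ p : M, ∃ K : ℝ, 0 ≤ K ∧
      ∀ᶠ q in 𝓝 p, q ∈ src E p ∧ CurvLE (S.loc p) K (ch p q) := by
    intro p
    obtain ⟨K, hK, hK'⟩ := curv_local (S.loc p) (ch_mem (mem_src (E := E) p))
    refine ⟨K, hK, ?_⟩
    have h1 := (continuousAt_ch (mem_src (E := E) p)).eventually hK'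
    filter_upwards [src_mem_nhds (E := E) p, h1] with q hq1 hq2
    exact ⟨hq1, hq2⟩
  choose Kf hKf0 hKf using hloc
  obtain ⟨t, ht⟩ := CompactSpace.elim_nhds_subcover
    (fun p : M => interior {q : M | q ∈ src E p ∧ CurvLE (S.loc p) (Kf p) (ch p q)})
    (fun p => isOpen_interior.mem_nhds (mem_interior_iff_mem_nhds.mpr (hKf p)))
  refine ⟨∑ p ∈ t, Kf p, Finset.sum_nonneg fun p _ => hKf0 p, ?_⟩
  intro p
  have hp : p ∈ (⋃ x ∈ t, interior {q : M | q ∈ src E x ∧ CurvLE (S.loc x) (Kf x) (ch x q)}) := by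
    rw [ht]
    trivial
  simp only [mem_iUnion] at hp
  obtain ⟨x, hxt, hpx⟩ := hp
  refine ⟨x, (interior_subset hpx).1, ?_⟩
  filter_upwards [isOpen_interior.mem_nhds hpx] with q hq
  have hq' := interior_subset hq
  refine ⟨hq'.1, CurvLE.mono ?_ (ch_mem hq'.1) hq'.2⟩
  exact Finset.single_le_sum (f := Kf) (fun i _ => hKf0 i) hxt

end Pool.Agent.Helper62.SR
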