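import Pool.Agent.Helper75.SR.Goals2
import Pool.Agent.Helper54.SRD.Basic

/-!
# MP_d08e19_gt: packet SR-GDiam
-/

namespace Pool.Agent.Helper62.SR

open scoped ContDiff Topology Manifold Matrix
open Set Real Pool.Agent.Helper54.SRD Pool.Agent.Helper75.SR

variable {E : Type} [NormedAddCommGroup E] [NormedSpace ℝ E]
variable {M : Type} [TopologicalSpace M] [ChartedSpace E M]

theorem AMetric.ext' {G G' : AMetric E M} (h : G.G = G'.G) : G = G' := by
  cases G
  cases G'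
  simp only at h
  subst h
  rfl

theorem met_eq {S S' : ASas E M} {β : ℝ} (hβ : 0 ≤ β)
    (h : ∀ x, (S'.loc x).Gb β = (S.loc x).Gb β) : S'.met β hβ = S.met β hβ := by
  apply AMetric.ext'
  funext x
  exact h x

theorem curvLE_congr {U : Set E} {S S' : LocSas E U} (hg : S'.g = S.g) (hG : S'.Gam = S.Gam)
    {K : ℝ} {z : E} (h : CurvLE S K z) : CurvLE S' K z := by
  intro u v
  have hR : ∀ x u v w, S'.R x u v w = S.R x u v w := by
    intro x u v w
    simp only [LocSas.R, hG]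
  rw [hg, hR]
  exact h u v

/-- The velocity bound `(1+β) w² ≤ 1`. -/
theorem speed_bound {U : Set E} (S : LocSas E U) {β : ℝ} {z : E} (hz : z ∈ U) {T : E} {w : ℝ}
    (h1 : S.Gb β z T T = 1) (h2 : ∀ i, S.g z (S.xi i z) T = (![w, 0, 0] : Fin 3 → ℝ) i) :
    (1 + β) * w ^ 2 ≤ 1 := by
  rw [S.Gb_apply] at h1
  have h3 : ∑ a : Fin 3, S.g z (S.xi a z) T * S.g z (S.xi a z) T = w ^ 2 := by
    simp only [h2, Fin.sum_univ_three]
    simp
    ring
  rw [h3] at h1
  have hx : S.g z (S.xi 0 z) (S.xi 0 z) = 1 := by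
    have := S.orth z hz 0 0
    simpa using this
  have hT : S.g z (S.xi 0 z) T = w := by simpa using h2 0
  have hT' : S.g z T (S.xi 0 z) = w := by rw [S.g_symm z hz]; exact hT
  have h4 : 0 ≤ S.g z (T - w • S.xi 0 z) (T - w • S.xi 0 z) := by
    by_cases h0 : T - w • S.xi 0 z = 0
    · rw [h0]
      simp
    · exact (S.g_pos z hz _ h0).le
  have h5 : S.g z (T - w • S.xi 0 z) (T - w • S.xi 0 z) = S.g z T T - w ^ 2 := by
    have e1 : S.g z (T - w • S.xi 0 z) = S.g z T - w • S.g z (S.xi 0 z) := by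
      rw [map_sub (S.g z), map_smul (S.g z)]
    rw [e1]
    simp only [_root_.sub_apply, _root_.smul_apply, smul_eq_mul,
      map_sub, map_smul, hT, hT', hx]
    ring
  nlinarith

theorem gDiam
    (hMIN : ∀ (E : Type) [NormedAddCommGroup E] [NormedSpace ℝ E] [FiniteDimensional ℝ E]
      (M : Type) [TopologicalSpace M] [ChartedSpace E M] [IsManifold 𝓘(ℝ, E) ∞ M], S_MIN E M)
    (hGEO : ∀ (E : Type) [NormedAddCommGroup E] [NormedSpace ℝ E] [FiniteDimensional ℝ E]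
      (M : Type) [TopologicalSpace M] [ChartedSpace E M] [IsManifold 𝓘(ℝ, E) ∞ M], S_GEO E M)
    (hGGeo : GGeo) (hRot : GGeoRot) (hRotA : GRotA) (hSO : GSO3) (hKB : GKB) (hMain : GMain)
    (hReeb : GReeb) : GDiam := by
  intro E _ _ _ M _ _ _ _ _ _ S hdim
  obtain ⟨K, hK0, hK⟩ := hKB E M S
  obtain ⟨β₀, hβ₀⟩ := hReeb E M S π hdim pi_pos
  set K₀ : ℝ := max 0 (max β₀ ((4 + K) / 4)) with hK₀
  have hK00 : 0 ≤ K₀ := le_max_left _ _
  refine ⟨K₀, hK00, ?_⟩
  intro β hβ hKβ x y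
  have hβ1 : (0 : ℝ) < 1 + β := by linarith
  have hc0 : 0 ≤ 1 - K₀ / (1 + β) := by
    rw [sub_nonneg, div_le_one hβ1]
    linarith
  have hc1 : 1 - K₀ / (1 + β) ≤ 1 := by
    have := div_nonneg hK00 hβ1.le
    linarith
  obtain ⟨hn, -, -, hmin⟩ := hMIN E M inferInstance inferInstance inferInstance (S.met β hβ)
  obtain ⟨γ, hγs, hγ0, hγL, hγt⟩ := hmin x y
  set L := tau (S.met β hβ) x y with hL
  have hL0 : 0 ≤ L := hn x y
  rcases le_or_gt L π with hLπ | hLπ
  · calc L ^ 2 * (1 - K₀ / (1 + β)) ≤ L ^ 2 * 1 := by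
          apply mul_le_mul_of_nonneg_left hc1 (sq_nonneg _)
      _ ≤ π ^ 2 := by
          rw [mul_one]
          exact pow_le_pow_left₀ hL0 hLπ 2
  have hkey : ∀ η : ℝ, 0 < η → η ≤ (L - π) / 2 →
      (L - 2 * η) ^ 2 * (1 - K₀ / (1 + β)) ≤ π ^ 2 := by
    intro η hη0 hη1
    have hab : η < L - η := by
      have := pi_pos
      linarith
    have hba : π ≤ (L - η) - η := by linarith
    have hgeo : ∀ t ∈ Icc η (L - η), IsGeo (S.met β hβ) γ t := by
      intro t ht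
      have hL' : (0 : ℝ) < L := by have := pi_pos; linarith
      exact hGEO E M inferInstance inferInstance inferInstance (S.met β hβ) γ 0 L hL' hγs hγt t
        ⟨by linarith [ht.1], by linarith [ht.2]⟩
    obtain ⟨W, hW⟩ := hGGeo E M S β hβ γ η (L - η) hab.le hgeo
    obtain ⟨A, hA, hAW⟩ := hSO W
    obtain ⟨S', hS'⟩ := hRotA E M S A hA
    set w : ℝ := √(∑ b, W b ^ 2) with hw
    have hw2 : w ^ 2 = ∑ b, W b ^ 2 := Real.sq_sqrt (Finset.sum_nonneg fun b _ => sq_nonneg _)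
    have hW' : GeoW S' β γ η (L - η) ![w, 0, 0] := by
      have h1 := hRot E M S S' A β γ η (L - η) W hA hS' hW
      have h2 : (fun i => ∑ j, A i j * W j) = (![w, 0, 0] : Fin 3 → ℝ) := by
        funext i
        rw [hAW i]
        fin_cases i <;> simp [hw]
      rwa [h2] at h1
    have hmet : S'.met β hβ = S.met β hβ := met_eq hβ fun x => (hS' x).2.2.2 β
    -- the speed bound
    have hsp : (1 + β) * w ^ 2 ≤ 1 := by
      obtain ⟨-, h1⟩ := hW' η ⟨le_refl _, hab.le⟩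
      obtain ⟨-, h2, h3, -⟩ := h1 (γ η) (mem_src (γ η))
      exact speed_bound (S'.loc (γ η)) (ch_mem (mem_src (γ η))) h2 h3
    have hne : (1 + β) * w ^ 2 ≠ 1 := by
      rw [hw2]
      refine hβ₀ β hβ γ η (L - η) W ?_ hba hγs hW hgeo ?_
      · exact le_trans (le_trans (le_max_left _ _) (le_max_right _ _)) hKβ
      · intro s t hs hst ht
        exact hγt s t (by linarith) hst (by linarith)
    have hτpos : 0 < 1 - (1 + β) * w ^ 2 := by
      rcases lt_or_eq_of_le hsp with h | h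
      · linarith
      · exact absurd h hne
    set τ : ℝ := √(1 - (1 + β) * w ^ 2) with hτ
    have hτ2 : τ ^ 2 = 1 - (1 + β) * w ^ 2 := Real.sq_sqrt hτpos.le
    have hτ0 : 0 < τ := Real.sqrt_pos.mpr hτpos
    have hmain := hMain E M S' K hK0 (by
      intro p
      obtain ⟨x, hx, hq⟩ := hK p
      refine ⟨x, hx, ?_⟩
      filter_upwards [hq] with q hq
      exact ⟨hq.1, curvLE_congr (hS' x).1 (hS' x).2.1 hq.2⟩) β hβ γ η (L - η) τ w hab hτ0 hτ2 hW'
      (by rw [hmet]; exact hgeo)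
      (by rw [hmet, hγt η (L - η) hη0.le hab.le (by linarith)])
    obtain ⟨hm1, hm2⟩ := hmain
    set D : ℝ := (L - η) - η with hD
    have hDpos : 0 < D := lt_of_lt_of_le pi_pos hba
    have hq4 : (2 * π / D) ^ 2 ≤ 4 := by
      have h1 : 2 * π / D ≤ 2 := by
        rw [div_le_iff₀ hDpos]
        linarith
      have h0 : 0 ≤ 2 * π / D := by positivity
      nlinarith
    have hτ1 : τ ^ 2 ≤ 1 := by
      rw [hτ2]
      have : 0 ≤ (1 + β) * w ^ 2 := by positivity
      linarith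
    have hKτ : K * τ ^ 2 ≤ K := by nlinarith
    have h4 : ((1 + β) * w) ^ 2 ≤ K₀ := by
      have h5 : (4 + K) / 4 ≤ K₀ := le_trans (le_max_right _ _) (le_max_right _ _)
      linarith
    have h6 : (1 + β) * w ^ 2 ≤ K₀ / (1 + β) := by
      rw [le_div_iff₀ hβ1]
      calc (1 + β) * w ^ 2 * (1 + β) = ((1 + β) * w) ^ 2 := by ring
        _ ≤ K₀ := h4
    have h7 : 1 - K₀ / (1 + β) ≤ τ ^ 2 := by rw [hτ2]; linarith
    have h8 : D ^ 2 * τ ^ 2 ≤ π ^ 2 := by
      have h9 : (2 * π / D) ^ 2 = 4 * π ^ 2 / D ^ 2 := by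
        rw [div_pow]
        ring
      rw [h9, le_div_iff₀ (by positivity)] at hm1
      linarith
    calc (L - 2 * η) ^ 2 * (1 - K₀ / (1 + β)) = D ^ 2 * (1 - K₀ / (1 + β)) := by
          rw [hD]
          ring
      _ ≤ D ^ 2 * τ ^ 2 := mul_le_mul_of_nonneg_left h7 (sq_nonneg _)
      _ ≤ π ^ 2 := h8
  have hlim : Filter.Tendsto (fun η : ℝ => (L - 2 * η) ^ 2 * (1 - K₀ / (1 + β))) (𝓝[>] 0)
      (𝓝 (L ^ 2 * (1 - K₀ / (1 + β)))) := by
    have h1 : Continuous (fun η : ℝ => (L - 2 * η) ^ 2 * (1 - K₀ / (1 + β))) := by fun_prop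
    have h2 := h1.tendsto 0
    simp only [mul_zero, sub_zero] at h2
    exact h2.mono_left nhdsWithin_le_nhds
  refine le_of_tendsto hlim ?_
  have hpos : (0 : ℝ) < (L - π) / 2 := by linarith
  filter_upwards [Ioc_mem_nhdsGT hpos] with η hη
  exact hkey η hη.1 hη.2

end Pool.Agent.Helper62.SR
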